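import Mathlib
import Pool.Agent.KS6_5.OG.Good
import Pool.Agent.KS6_5.OG.Elliptic
import Pool.Graph.R_pool_sql_team_seeded_2aa45f1a.Q64.M.Dg

/-!
# The noncommutative standard conjecture of type D for the products of dg categories with ordinary
elliptic curves and abelian varieties over different real fields

Let `q = p ^ a`, and let `P k` (`k` in an arbitrary set, possibly infinite) be polynomials with
integral coefficients with the following properties (`IsOnePlaceFamily`), for instance
characteristic polynomials of Frobenius of abelian varieties over the field with `q` elements:

* their roots `z` have the absolute value `√q` and the slopes `1 / 2 + δ k` and `1 / 2 - δ k` only,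
  with `δ k > 0`; ordinary abelian varieties have `δ k = 1 / 2`;
* for some `m > 0` the number `z ^ m + (q / z) ^ m` is contained in a Galois extension of `ℚ` with
  one place above `p` and with cyclic Sylow `2`-subgroups of the Galois group: for example in a
  cyclic field in which `p` is inert or totally ramified. **This field may be different for
  different roots `z` and different `k`**, and nothing is assumed on its degree;
* for `δ k ≠ δ l` no power of `z ^ 2 / q` is a power of `z' ^ 2 / q`, for the roots `z` of `P k` and `z'`
  of `P l` (no condition if all `δ k` are equal, for instance in the ordinary case);
* `z z' / q` is not a root of unity different from one, for all roots `z`, `z'` of the `P k` (this is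
  true after a finite extension of the base field).

**The second part of the theorem: `P k = X ^ 2 - b k X + q` is such a family if `p` does not divide
`b k` and the imaginary quadratic fields `ℚ(√(b k ^ 2 - 4 q))` are different from each other.** So up
to isogeny and finite extensions of the base field `A` can be any product of any number of ordinary
elliptic curves. Other examples are ordinary abelian surfaces with real multiplication by quadratic
fields in which `p` does not split, ordinary abelian varieties such that the centre of the
endomorphism algebra over an algebraic closure is a quadratic extension of a cyclic field in which
`p` is inert, and all products of such abelian varieties and elliptic curves.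

Let `A` be an abelian variety over the field with `Q = q ^ s` elements which is isogenous to a
product of powers of abelian varieties coming from the field with `q` elements, with characteristic
polynomials `P k` (for `s = 1`: any product of powers of the abelian varieties), and let `ℰ` be **any** smooth proper dg category over the field with
`Q` elements such that

* the eigenvalues `ρ` of the cyclotomic Frobenius on `TP_0(ℰ)` and `TP_1(ℰ)` (with `p` inverted)
  are algebraic numbers, and satisfy the
  following condition (`NarrowUnrelated`), where `w ≥ 0` is **any** real number:

  `SlopesInInterval`: the slopes of `ρ` with respect to `q` lie in an interval of length `w` (which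
  depends on `ρ`); and

  `NoShortRelation`: there is no relation `(z 1 ⋯ z n) ^ m * ρ ^ N = q ^ c`, `m, N > 0`, with `n > 0`
  roots `z i` of polynomials `P (k i)` no two of which have the product `q`, and with
  `∑ (2 δ (k i)) ^ 2 ≤ w ^ 2`. If `A` is ordinary the last condition is `n ≤ w ^ 2`.

  If `w < 2 δ k` for all `k` there are no such products and `NoShortRelation` is no condition (third
  part of the theorem): if `A` is a product of ordinary elliptic curves all `ℰ` are allowed such
  that the slopes of each eigenvalue and its conjugates lie in an interval of length less than one,
  without any condition on fields. If `A` is ordinary and `w = 1`, as for curves, `K3` surfaces of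
  height two and so on, only `n = 1` remains: no eigenvalue of Frobenius of `ℰ` is an eigenvalue of
  Frobenius of `A`, up to roots of unity and powers of `q` (for a curve: no factor of `A` is
  isogenous to a factor of the Jacobian, over an algebraic closure). **In general, although `A` can
  have any number of factors, only products of at most `w ^ 2` of the numbers `z i` have to be
  compared with the eigenvalues of `ℰ`**; and `w` is at most the dimension of `ℰ` if `ℰ` is the category of a variety.

**The noncommutative standard conjecture of type D (the assertion of Q1) is true for `perf(A) ⊗ ℰ`
if and only if it is true for `ℰ`** (`DgStandardDReduces`). More precisely, `K_0(perf(A) ⊗ ℰ)_ℚ`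
modulo homological equivalence is the direct sum of the products of finitely many products of
divisors on `A` with `K_0(ℰ)_ℚ` modulo homological equivalence. For instance, the assertion is true
for `perf(A) ⊗ ℰ` if `ℰ` has a full exceptional collection, or if `TP_0(ℰ)` is spanned by classes of
objects. Here `ℰ` is arbitrary, and need not be a summand of the motive of a variety: only the
Frobenius endomorphism of `A` is used.

What is used of `A` are known theorems (`IsAbelian`): `H(A)` is generated by `H^1`, Frobenius is
diagonalizable on `H^1` (Weil), the theorem of Tate on divisors, and the nilpotence of
homologically trivial correspondences (Kimura). The topological periodic cyclic homology `R` of `ℰ`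
and `perf(A) ⊗ ℰ` is modelled by `RelData`: the groups of bidegree `(i, j)` are `TP_(2 j - i)(ℰ)`
and `TP_(2 j - i)(perf(A) ⊗ ℰ)`, with `p` inverted (the first part of this group, for the dg
category of a variety `X`, is `H^i(X)(j)`). The formal properties in `IsRel`: the product with a
class of codimension `c` on `A` (an element of `K_0(A)_ℚ = CH(A)_ℚ`) has the bidegree `(2 c, c)`;
the push-forward to `ℰ`, the projection formula and the operation of the correspondences of `A`.
The operator `frobN` is `Q ^ j` times the cyclotomic Frobenius of `ℰ`, and `frobM` is `Q ^ j` times
the cyclotomic Frobenius of `perf(A) ⊗ ℰ`, composed with the inverse of the operation of the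
Frobenius endomorphism of `A`. So the elements in `InvN`, `InvM` of bidegree `(2 j, j)` are the
elements of `TP_0` which are fixed by the cyclotomic Frobenius. The theory `T` is `K_0` modulo
homological equivalence, in all the bidegrees `(2 j, j)`, with the injective map to `R`
(`IsCycles`), and `B` is the Euler pairing, for which the rules in `IsEulerPairing` hold.

Relation to other results. In the starting files (`AllCMTypesTimes`, `NewtonStrata`,
`SmallSlopeDeviation` and others on this problem) the factors of `A` are almost all CM types, almost
all abelian varieties, or have absolutely irreducible and mutually unrelated fields, and `ℰ` is
unrelated to them. In `OnePlaceTimes` (helper74, this problem; arithmetic by helper5) all real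
multiplications are contained in **one** field `F` with one place above `p` in question (so `F = ℚ`
for elliptic curves), and each eigenvalue of `ℰ` does not generate the fields over `F`, or has slopes
in an interval of length less than one (`A` ordinary). Here the real fields are different, and in
general no field containing two of them has only one place above `p`: there is no group of
automorphisms which acts on all numbers by signs. For example `A` can be any product of ordinary
elliptic curves and of ordinary abelian surfaces with real multiplications by different quadratic
fields in which `p` is inert. The condition on `ℰ` is also different: the slopes are arbitrary, and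
`NoShortRelation` is not only sufficient but also necessary for the absence of relations, as all
relations are short.

The proof. (1) The logarithms of the absolute values of the conjugates of `x = z ^ 2 / q` define a
function `F₁` with values `± 1` on the Galois group `G` of the algebraic numbers. If the field `F` of
`x` has one place above `p` then `G = D H₁`, where `F₁` is invariant on the left by the decomposition
group `D`, and multiplied by a sign under the right translations by the elements of the normal
subgroup `H₁` of the automorphisms over `F`. Let `F₂`, `H₂` belong to another number `y`. Then
`B(h', h) = P(h' h) P(h') P(h) P(1)`, with `P = F₁ F₂`, is given by the commutator of `H₁` and `H₂`. It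
is a bilinear form on `H₁ / (H₁ ∩ H₂)` with `B(h, h) = 1`, unless `P` changes its sign under a right
translation by a square; so it is trivial if the Sylow `2`-subgroups are cyclic. Hence `P` is
constant or changes its sign under some right translation: the functions of slopes of `x` and `y`
are proportional or orthogonal to each other. If they are proportional, the numbers are equal or
inverse to each other up to roots of unity. (2) Suppose that the product of `ρ` and of `n` roots
`z i`, no two of them with product `q`, is a power of `q`, up to a root of unity. Then the mean
square of the sum of the functions of slopes of the `z i ^ 2 / q` is at least `∑ (2 δ (k i)) ^ 2`, and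
at most `w ^ 2`, as this sum is also, up to a constant, twice the function of slopes of `ρ`. So the
relation is short, and excluded. (3) The
deduction of the theorem from the statement on relations is the one of the starting files
(`AllCMTypesDgCategories`): on the generalized eigenspace of Frobenius for the power of `Q` in
question the correspondence on `A` given by the sum of the products of dual classes of products of
divisors acts as the identity. So the elements of `TP_0(perf(A) ⊗ ℰ)` which are fixed by the
cyclotomic Frobenius, and the classes of the objects of `perf(A) ⊗ ℰ`, are the direct sums of the
products of finitely many products of divisors on `A` with those of `ℰ`, and the Euler pairings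
correspond, up to the signs in the rules.
-/

set_option autoImplicit false

namespace Pool.Agent.Results.MP_28af06_ag.DifferentFieldsTimes

open Polynomial Pool.Agent.KS6_5.OC Pool.Agent.KS6_5.OG Pool.Agent.Y1.CT
  Pool.Agent.Q64.L Pool.Agent.Q64.M

/-- **Homological and numerical equivalence coincide for `perf(A) ⊗ ℰ` if and only if they coincide
for `ℰ`**, for the abelian varieties `A` with two slopes
`1 / 2 ± δ k` whose real fields, which may be different, have one place above `p`, for instance for all
products of ordinary elliptic curves, and all smooth proper dg categories `ℰ` whose
Frobenius eigenvalues have slopes in an interval of length `w` and no relations with products of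
few eigenvalues of Frobenius of `A` (none at all are to be considered for `w < 2 δ k`). -/
theorem result :
    (∀ (p : ℕ) [Fact p.Prime] (a : ℕ), 0 < a → ∀ (κ : Type) (δ : κ → ℝ) (P : κ → ℤ[X]),
      IsOnePlaceFamily p a δ P → ∀ w : ℝ, 0 ≤ w →
      DgStandardDReduces (NarrowUnrelated p a w δ P) (p ^ a) P) ∧
    (∀ (p : ℕ) [Fact p.Prime] (a : ℕ), 0 < a → ∀ (κ : Type) (b : κ → ℤ),
      (∀ k, ¬ (p : ℤ) ∣ b k) → (∀ k, b k ^ 2 < 4 * (p ^ a : ℕ)) →
      (∀ k l, b k = b l ∨ ¬ IsSquare ((b k ^ 2 - 4 * (p ^ a : ℕ)) * (b l ^ 2 - 4 * (p ^ a : ℕ)))) →
      IsOnePlaceFamily p a (fun _ : κ => 1 / 2)
        (fun k => X ^ 2 - C (b k) * X + C (((p ^ a : ℕ) : ℤ)))) ∧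
    (∀ (q : ℕ) (κ : Type) (δ : κ → ℝ) (P : κ → ℤ[X]) (w : ℝ), 0 ≤ w → (∀ k, w < 2 * δ k) →
      ∀ ρ : AlgebraicClosure ℚ, NoShortRelation q w δ P ρ) := by
  refine ⟨?_, ?_, ?_⟩
  · intro p _ a ha κ δ P H w hw
    have hq : 1 < p ^ a := Nat.one_lt_pow ha.ne' (Fact.out : p.Prime).one_lt
    exact dgStandardDReduces hq (good_family ha H hw)
  · intro p _ a ha κ b hb hd h
    exact ell_family ha b hb hd h
  · intro q κ δ P w hw h ρ
    exact noShortRelation_of_lt hw h ρ

end Pool.Agent.Results.MP_28af06_ag.DifferentFieldsTimes
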