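import Mathlib
import Pool.Agent.KS6_74.OP.Good
import Pool.Agent.KS6_5.SP.Place
import Pool.Graph.R_pool_sql_team_seeded_2aa45f1a.Q64.M.Dg

/-!
# The noncommutative standard conjecture of type D for the products of dg categories with abelian
varieties whose Frobenius numbers are supported at one place

Let `F` be a number field, `q = p ^ a`, and let `π i` (`i` in a finite set) be Weil numbers for `q`
of weight one in CM fields `E i`, all of whose powers generate `E i` (`IsWeilOne`), such that

* `F` contains all conjugates of the maximal totally real subfields of the `E i` (`ContainsReal`);
* each conjugate of `α i = π i ^ 2 / q` (`angle`) is a unit at all places above `p` except for those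
  above **one** place of `F` (`AtOnePlace`). This is true for all numbers if `F` has only one place
  above `p`, for example if `p` is inert or totally ramified in `F` (second part of the theorem). It
  is also true, for all `p`, if `α i` is a unit except at the two places above one place of degree
  one of a Galois real field;
* no power of a conjugate of `α i` is equal to a power of a conjugate of `α j`, for `i ≠ j`
  (`Incommensurable`). (Otherwise one omits one of the `π i`, up to isogeny and base change.)

Nothing is assumed about the Galois groups, the fields may be equal to each other, and all slopes
occur; the slopes may be equal to `1 / 2` at some, but not all, places. Let `f i` be monic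
polynomials whose complex roots are conjugates of `π i` (`IsPolyOf`), for instance the
characteristic polynomials of Frobenius of the abelian varieties in the isogeny classes of the
`π i` over the field with `q` elements. Let `A` be an abelian variety over the field with
`Q = q ^ s` elements which is isogenous to a product of powers of abelian varieties coming from the
field with `q` elements, with characteristic polynomials `f i` (for `s = 1`: any product of powers of
simple abelian varieties with Weil numbers `π i`), and let `ℰ` be **any** smooth proper dg category over the field with
`Q` elements such that

* the eigenvalues `ρ` of the cyclotomic Frobenius on `TP_0(ℰ)` and `TP_1(ℰ)` (with `p` inverted)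
  are algebraic numbers, and satisfy for all `i` one of the two conditions
  (`ForeignOrSmallRoots`):

  `NotOver`: for some `m > 0` the field `F(ρ ^ m)` contains no conjugate of `E i`; **or**

  `SmallerSlopes`: there is a number `c` with `|log |ρ| - c| < |log |α|| / 2` for all `p`-adic
  absolute values of the conjugates of `ρ` and all absolute values `≠ 1` of the conjugates `α` of
  `α i`. For `s = 1` this means `|v - c'| < |v' - 1 / 2|` for all slopes `v` of the conjugates of `ρ`
  and all slopes `v' ≠ 1 / 2` of `π i`: if `A` is ordinary, then the slopes of `ρ` lie in an interval
  of length less than one. So all `ρ` are allowed which are powers of `q`, up to roots of unity, and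
  those of `K3` surfaces of height at least three, of abelian varieties with slopes
  different from `0` and `1`, and so on. There is no condition on the fields `ℚ(ρ)`.

**The noncommutative standard conjecture of type D (the assertion of Q1) is true for `perf(A) ⊗ ℰ`
if and only if it is true for `ℰ`** (`DgStandardDReduces`). More precisely, `K_0(perf(A) ⊗ ℰ)_ℚ`
modulo homological equivalence is the direct sum of the products of finitely many products of
divisors on `A` with `K_0(ℰ)_ℚ` modulo homological equivalence. For instance, the assertion is true
for `perf(A) ⊗ ℰ` if `ℰ` has a full exceptional collection, or if `TP_0(ℰ)` is spanned by classes of
objects. Here `ℰ` is arbitrary, and need not be a summand of the motive of a variety: only the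
Frobenius endomorphism of `A` is used.

What is used of `A` are known theorems (`IsAbelian`): `H(A)` is generated by `H^1`, Frobenius is
diagonalizable on `H^1` (Weil), the theorem of Tate on divisors, and the nilpotence of
homologically trivial correspondences (Kimura). The topological periodic cyclic homology `R` of `ℰ`
and `perf(A) ⊗ ℰ` is modelled by `RelData`: the groups of bidegree `(i, j)` are `TP_(2 j - i)(ℰ)`
and `TP_(2 j - i)(perf(A) ⊗ ℰ)`, with `p` inverted (the first part of this group, for the dg
category of a variety `X`, is `H^i(X)(j)`). The formal properties in `IsRel`: the product with a
class of codimension `c` on `A` (an element of `K_0(A)_ℚ = CH(A)_ℚ`) has the bidegree `(2 c, c)`;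
the push-forward to `ℰ`, the projection formula and the operation of the correspondences of `A`.
The operator `frobN` is `Q ^ j` times the cyclotomic Frobenius of `ℰ`, and `frobM` is `Q ^ j` times
the cyclotomic Frobenius of `perf(A) ⊗ ℰ`, composed with the inverse of the operation of the
Frobenius endomorphism of `A`. So the elements in `InvN`, `InvM` of bidegree `(2 j, j)` are the
elements of `TP_0` which are fixed by the cyclotomic Frobenius. The theory `T` is `K_0` modulo
homological equivalence, in all the bidegrees `(2 j, j)`, with the injective map to `R`
(`IsCycles`), and `B` is the Euler pairing, for which the rules in `IsEulerPairing` hold.

Relation to other results (starting files). `AllCMTypesDgCategories`, `AlmostAllDgCategories`,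
`NewtonStrata` and `SmallSlopeDeviation` (this problem) are about almost all CM types, almost all
abelian varieties, absolutely irreducible and mutually unrelated fields. The class of `A` here is
different: explicit, for each single abelian variety, without conditions on the Galois groups and
on the multiplicities of the slopes; and so is the class of `ℰ`, whose fields may be the same.

The proof. Suppose that the product of `ρ` and of some conjugates of the `π i`, no two of them
complex conjugate, is a power of `q`, up to a root of unity. Let `S` be the group of the
automorphisms which fix all elements of `F`. It acts on the conjugates of `E i` through signs: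
`h σ = σ` or `h σ` is the complex conjugate of `σ`. We fix one of the conjugates in the relation,
`x = σ (α i)`, and a place where it is not a unit, and take the average of the logarithms of the
relation at this place and its images under `S`, with the sign character of `x`. Only the conjugates
`y = τ (α j)` with the same sign character remain. If `y` is not a unit at the given place either,
then both `x` and `y` are units except above the same place of `F`; as `S` permutes the places above
it transitively and acts through the same signs, `log |y|` is proportional to `log |x|` at all
places. The factor is rational, so that a power of `y` is a power of `x` or of its conjugate; this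
is excluded for `j ≠ i`, and for `j = i` the factor is `± 1` and `τ` is `σ` or its conjugate, because
the powers generate `E i`. So only the difference of the exponents of `x` and its conjugate
remains. It vanishes because the contribution of `ρ` is averaged out (`NotOver`) or is too small
(`SmallerSlopes`). This part is due to helper5 of this team (`OnePlaceOfRealField`,
MP_2a05c8_ag), where it is applied to the Tate conjecture. The
deduction of the theorem from the statement on relations is the one of the starting files
(`AllCMTypesDgCategories`): on the generalized eigenspace of Frobenius for the power of `Q` in
question the correspondence on `A` given by the sum of the products of dual classes of products of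
divisors acts as the identity. So the elements of `TP_0(perf(A) ⊗ ℰ)` which are fixed by the
cyclotomic Frobenius, and the classes of the objects of `perf(A) ⊗ ℰ`, are the direct sums of the
products of finitely many products of divisors on `A` with those of `ℰ`, and the Euler pairings
correspond, up to the signs in the rules.
-/

set_option autoImplicit false

namespace Pool.Agent.Results.MP_28af06_ag.OnePlaceTimes

open NumberField Polynomial Pool.Agent.KS6_5.SP Pool.Agent.KS6_74.OP Pool.Agent.Y1.CT
  Pool.Agent.Q64.L Pool.Agent.Q64.M

/-- **Homological and numerical equivalence coincide for `perf(A) ⊗ ℰ` if and only if they coincide
for `ℰ`**, for the abelian varieties `A` whose Frobenius numbers are supported at one place of a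
field `F` containing all the real multiplications, and all smooth proper dg categories `ℰ` whose
Frobenius eigenvalues have smaller slopes or do not generate the fields `E i` over `F`. -/
theorem result :
    (∀ (p : ℕ) [Fact p.Prime] (a : ℕ), 0 < a → ∀ (F : IntermediateField ℚ (AlgebraicClosure ℚ))
      [FiniteDimensional ℚ F] (I : Type) [Fintype I] (E : I → Type)
      [∀ i, Field (E i)] [∀ i, NumberField (E i)] [∀ i, IsCMField (E i)] (π : ∀ i, E i),
      (∀ i, IsWeilOne p a (π i)) → (∀ i, ContainsReal F (E i)) →
      (∀ i, AtOnePlace p F (angle p a (π i))) → Incommensurable (fun i => angle p a (π i)) →
      ∀ f : I → ℤ[X], (∀ i, IsPolyOf (π i) (f i)) →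
      DgStandardDReduces (ForeignOrSmallRoots p a F π) (p ^ a) f) ∧
    (∀ (p : ℕ) [Fact p.Prime] (F : IntermediateField ℚ (AlgebraicClosure ℚ))
      [FiniteDimensional ℚ F], (∃! P : Ideal (𝓞 F), P.IsPrime ∧ (p : 𝓞 F) ∈ P) →
      ∀ (E : Type) [Field E] (α : E), AtOnePlace p F α) := by
  refine ⟨?_, ?_⟩
  · intro p _ a ha F _ I _ E _ _ _ π hW hR hP hI f hf
    have hq : 1 < p ^ a := Nat.one_lt_pow ha.ne' (Fact.out : p.Prime).one_lt
    have hG := good_onePlace (F := F) ⟨hW, hR, hP, hI⟩ hf
    exact dgStandardDReduces hq hG
  · intro p _ F _ h E _ α
    exact atOnePlace_of_unique F h α

end Pool.Agent.Results.MP_28af06_ag.OnePlaceTimes
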