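import Mathlib
import Pool.Agent.KS6_5.OF.Crit
import Pool.Graph.R_pool_sql_team_seeded_2aa45f1a.Q64.M.Dg

/-!
# The noncommutative standard conjecture of type D for the products of dg categories with abelian
varieties separated by sign changes, with arbitrary Newton polygons

Let `q = p ^ a`, and let `P k` (`k` in an arbitrary set, possibly infinite) be monic irreducible
polynomials with integral coefficients with the following properties (`IsSeparatedFamily`), for
instance the minimal polynomials of the Frobenius endomorphisms of simple abelian varieties over
the field with `q` elements. **The Newton polygons are arbitrary**, but not all slopes are `1 / 2`.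

* the roots `z` of `P k` have the absolute value `√q`, and `(2 δ k) ^ 2 > 0` is at most the mean
  value of `(2 s - 1) ^ 2` over all slopes `s` of `P k`; so one can take `δ k = 1 / 2` for ordinary
  abelian varieties, and `(2 δ k) ^ 2 = f / g` for the dimension `g` and `p`-rank `f`;
* any two roots `z`, `z'` of the polynomials are **separated** (`Separated`): they are equal or have
  the product `q`, up to a root of unity, or **some** automorphism of the field of algebraic numbers
  fixes a power of one of them and maps a power of the other one to its complex conjugate;
* `z z' / q` is not a root of unity different from one, for all roots `z`, `z'` of the `P k` (this is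
  true after a finite extension of the base field).

**The second part of the theorem is a criterion**: the last two conditions are satisfied if over the
field `ℚ(z)` generated by any root `z` of `P k` the polynomial `P k` is the product of `X - z`,
`X - q / z` and an irreducible polynomial (or `P k` is quadratic), and for `k ≠ l` one of the
polynomials `P k`, `P l` is irreducible over the fields generated by the roots of the other one; in
other words, the automorphisms which fix `z` permute the other roots of `P k` transitively
(`TransitiveOnOthers`, without `q / z`), and the roots of `P l` (`TransitiveOver`), or conversely. So it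
is sufficient that the Galois group of `P k` is the group of all permutations of the roots which
respect the pairs `{z, q / z}` (for almost all abelian varieties in the usual families, Chavdarov
and Kowalski), or any subgroup with only three orbits on pairs of roots, and that the fields of `P k`
and `P l` are linearly disjoint, or only one of them over the other in the sense above: **there is no
condition on three or more of the fields**.

**The third part: `P k = X ^ 2 - b k X + q` is such a family if `p` does not divide `b k` and the
imaginary quadratic fields `ℚ(√(b k ^ 2 - 4 q))` are different from each other.**

Let `A` be an abelian variety over the field with `Q = q ^ s` elements which is isogenous to a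
product of powers of abelian varieties coming from the field with `q` elements, with Frobenius
eigenvalues among the roots of the `P k` (for `s = 1`: any product of powers of the simple abelian
varieties), and let `ℰ` be **any** smooth proper dg category over the field with
`Q` elements such that

* the eigenvalues `ρ` of the cyclotomic Frobenius on `TP_0(ℰ)` and `TP_1(ℰ)` (with `p` inverted)
  are algebraic numbers, and satisfy the
  following condition (`NarrowUnrelated`), where `w ≥ 0` is **any** real number:

  `SlopesInInterval`: the slopes of `ρ` with respect to `q` lie in an interval of length `w` (which
  depends on `ρ`); and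

  `NoShortRelation`: there is no relation `(z 1 ⋯ z n) ^ m * ρ ^ N = q ^ c`, `m, N > 0`, with `n > 0`
  roots `z i` of polynomials `P (k i)` no two of which have the product `q`, and with
  `∑ (2 δ (k i)) ^ 2 ≤ w ^ 2`.

  If `w < 2 δ k` for all `k` there are no such products and `NoShortRelation` is no condition
  (fourth part of the theorem): **all `ℰ` are allowed such that the slopes of each eigenvalue and
  its conjugates lie in an interval of length less than `2 δ`, without any condition on fields**; for
  ordinary `A` this is an interval of length less than one, in general `2 δ` is the square root of
  the mean value of `(2 s - 1) ^ 2` over the slopes of the simple factors of `A`. For larger `w` only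
  products of few of the numbers `z i` have to be compared with the eigenvalues of `ℰ`, although `A`
  can have any number of factors, of any dimension; `w` is at most the dimension of `ℰ` if `ℰ` is the category of a variety.

**The noncommutative standard conjecture of type D (the assertion of Q1) is true for `perf(A) ⊗ ℰ`
if and only if it is true for `ℰ`** (`DgStandardDReduces`). More precisely, `K_0(perf(A) ⊗ ℰ)_ℚ`
modulo homological equivalence is the direct sum of the products of finitely many products of
divisors on `A` with `K_0(ℰ)_ℚ` modulo homological equivalence. For instance, the assertion is true
for `perf(A) ⊗ ℰ` if `ℰ` has a full exceptional collection, or if `TP_0(ℰ)` is spanned by classes of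
objects. Here `ℰ` is arbitrary, and need not be a summand of the motive of a variety: only the
Frobenius endomorphism of `A` is used.

What is used of `A` are known theorems (`IsAbelian`): `H(A)` is generated by `H^1`, Frobenius is
diagonalizable on `H^1` (Weil), the theorem of Tate on divisors, and the nilpotence of
homologically trivial correspondences (Kimura). The topological periodic cyclic homology `R` of `ℰ`
and `perf(A) ⊗ ℰ` is modelled by `RelData`: the groups of bidegree `(i, j)` are `TP_(2 j - i)(ℰ)`
and `TP_(2 j - i)(perf(A) ⊗ ℰ)`, with `p` inverted (the first part of this group, for the dg
category of a variety `X`, is `H^i(X)(j)`). The formal properties in `IsRel`: the product with a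
class of codimension `c` on `A` (an element of `K_0(A)_ℚ = CH(A)_ℚ`) has the bidegree `(2 c, c)`;
the push-forward to `ℰ`, the projection formula and the operation of the correspondences of `A`.
The operator `frobN` is `Q ^ j` times the cyclotomic Frobenius of `ℰ`, and `frobM` is `Q ^ j` times
the cyclotomic Frobenius of `perf(A) ⊗ ℰ`, composed with the inverse of the operation of the
Frobenius endomorphism of `A`. So the elements in `InvN`, `InvM` of bidegree `(2 j, j)` are the
elements of `TP_0` which are fixed by the cyclotomic Frobenius. The theory `T` is `K_0` modulo
homological equivalence, in all the bidegrees `(2 j, j)`, with the injective map to `R`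
(`IsCycles`), and `B` is the Euler pairing, for which the rules in `IsEulerPairing` hold.

Relation to other results. In the library (`AllCMTypesTimes`, `NewtonStrata`,
`SmallSlopeDeviation` on this problem, `SeparatedSigns` and `SeparatedByClosures` on others) there are
many theorems on the relations between the eigenvalues of `A` itself, under conditions on the CM
fields, their Galois closures and the CM types of the finitely many factors; there `ℰ` is unrelated
to the CM fields of `A`, by a condition on the representations of the Galois group (functions on the
embeddings which are invariant under the automorphisms fixing an eigenvalue vanish), and it is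
needed for all `ℰ`, however small their slopes. Here the eigenvalues of `ℰ` may lie in the fields of
`A`; what is excluded are only short relations, which are really obstructions. In `OnePlaceTimes`
(helper74), `AllButFewTimes` (helper11) and `DifferentFieldsTimes` (helper5, this problem)
the abelian varieties have two slopes and real fields with one place above `p`, or a few bad factors
which are small compared with the rest. There is no condition on the decomposition of `p` and on the
Newton polygon here; the method is different, and only pairs of roots have to be considered.

The proof. (1) For an embedding `l` of the field of algebraic numbers into the algebraic closure of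
the field of `p`-adic numbers let `F_z (l)` be the logarithm of the absolute value of
`l (z ^ 2 / q)`. If the automorphism `g` fixes a power of `z` and conjugates a power of `z'` then the
translation by `g` preserves `F_z` and changes the sign of `F_z'`: **so `F_z` and `F_z'` are
orthogonal to each other** for the mean value over all `l` (over a finite quotient of the Galois
group). The mean value of `F_z ^ 2` is the one over the slopes of `P k`, at least
`(2 δ k log q) ^ 2`, as the Galois group is transitive on the roots. (2) Suppose that the product of
`ρ` and of `n` roots `z i`, no two of them with product `q`, is a power of `q`, up to a root of unity.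
Then the mean square of `∑ F_(z i)` is at least `∑ (2 δ (k i) log q) ^ 2`, as the products of two
terms have mean value zero, or are squares; and it is at most `(w log q) ^ 2`, as this sum is also,
up to a constant, twice the function of slopes of `ρ`, and odd for the complex conjugation. So the
relation is short, and excluded. (3) The
deduction of the theorem from the statement on relations is the one of the starting files
(`AllCMTypesDgCategories`): on the generalized eigenspace of Frobenius for the power of `Q` in
question the correspondence on `A` given by the sum of the products of dual classes of products of
divisors acts as the identity. So the elements of `TP_0(perf(A) ⊗ ℰ)` which are fixed by the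
cyclotomic Frobenius, and the classes of the objects of `perf(A) ⊗ ℰ`, are the direct sums of the
products of finitely many products of divisors on `A` with those of `ℰ`, and the Euler pairings
correspond, up to the signs in the rules.
-/

set_option autoImplicit false

namespace Pool.Agent.Results.MP_28af06_ag.SeparatedByFlipsTimes

open Polynomial Pool.Agent.KS6_5.OC Pool.Agent.KS6_5.OG Pool.Agent.KS6_5.OF Pool.Agent.Y1.CT
  Pool.Agent.Q64.L Pool.Agent.Q64.M

/-- **Homological and numerical equivalence coincide for `perf(A) ⊗ ℰ` if and only if they coincide
for `ℰ`**, for the abelian varieties `A`, with
arbitrary Newton polygons, such that any two eigenvalues of Frobenius are separated by an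
automorphism which fixes one of them and conjugates the other one, and all smooth proper dg categories `ℰ`
whose Frobenius eigenvalues have slopes in an interval of length `w` and no relations with products
of few eigenvalues of Frobenius of `A` (none at all are to be considered for `w < 2 δ k`, `(2 δ k) ^ 2`
the mean value of `(2 s - 1) ^ 2` over the slopes `s`). -/
theorem result :
    (∀ (p : ℕ) [Fact p.Prime] (a : ℕ), 0 < a → ∀ (κ : Type) (δ : κ → ℝ) (P : κ → ℤ[X]),
      IsSeparatedFamily p a δ P → ∀ w : ℝ, 0 ≤ w →
      DgStandardDReduces (NarrowUnrelated p a w δ P) (p ^ a) P) ∧
    (∀ (p : ℕ) [Fact p.Prime] (a : ℕ), 0 < a → ∀ (κ : Type) (δ : κ → ℝ) (P : κ → ℤ[X]),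
      (∀ k, 0 < δ k) → (∀ k, (P k).Monic) → (∀ k, Irreducible (P k)) →
      (∀ (k : κ) (z : AlgebraicClosure ℚ), aeval z (P k) = 0 →
        ∀ φ : AlgebraicClosure ℚ →+* ℂ, ‖φ z‖ ^ 2 = (p ^ a : ℕ)) →
      (∀ k, ((P k).natDegree : ℝ) * (2 * δ k) ^ 2 ≤ (((P k).aroots (PadicAlgCl p)).map fun y =>
        (2 * Real.log ‖y‖ / Real.log (p ^ a : ℕ) + 1) ^ 2).sum) →
      (∀ k, TransitiveOnOthers (p ^ a) (P k)) →
      (∀ k l, k ≠ l → TransitiveOver (P k) (P l) ∨ TransitiveOver (P l) (P k)) →
      IsSeparatedFamily p a δ P) ∧
    (∀ (p : ℕ) [Fact p.Prime] (a : ℕ), 0 < a → ∀ (κ : Type) (b : κ → ℤ),
      (∀ k, ¬ (p : ℤ) ∣ b k) → (∀ k, b k ^ 2 < 4 * (p ^ a : ℕ)) →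
      (∀ k l, b k = b l ∨ ¬ IsSquare ((b k ^ 2 - 4 * (p ^ a : ℕ)) * (b l ^ 2 - 4 * (p ^ a : ℕ)))) →
      IsSeparatedFamily p a (fun _ : κ => 1 / 2)
        (fun k => X ^ 2 - C (b k) * X + C (((p ^ a : ℕ) : ℤ)))) ∧
    (∀ (q : ℕ) (κ : Type) (δ : κ → ℝ) (P : κ → ℤ[X]) (w : ℝ), 0 ≤ w → (∀ k, w < 2 * δ k) →
      ∀ ρ : AlgebraicClosure ℚ, NoShortRelation q w δ P ρ) := by
  refine ⟨?_, ?_, ?_, ?_⟩
  · intro p _ a ha κ δ P H w hw
    have hq : 1 < p ^ a := Nat.one_lt_pow ha.ne' (Fact.out : p.Prime).one_lt
    exact dgStandardDReduces hq (good_separated ha H hw)
  · intro p _ a ha κ δ P h1 h2 h3 h4 h5 h6 h7
    exact family_of_transitive ha h1 h2 h3 h4 h5 h6 h7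
  · intro p _ a ha κ b hb hd h
    exact ell_separated_family ha b hb hd h
  · intro q κ δ P w hw h ρ
    exact noShortRelation_of_lt hw h ρ

end Pool.Agent.Results.MP_28af06_ag.SeparatedByFlipsTimes
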